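import Pool.Agent.H97.XE.HPL

/-! # [H97 XE APL] All points, all members with `|a|` large

`pos_pol`: `pos_u` (`Pool/Agent/H97/XU/AUZ.lean`) with `half_pol` for `F` and for `swF F` (`T = TN^232`): `R = R_1 R_2'`, `R' = R_1' R_2` (the polynomials of `swF F` are
exchanged); exponent `2 T^368 ≤ TN^85377`. `all_pol`: `a ≥ 0` and `a < 0` (`ngF F`, `ngR`, `pb_ng`, `ngR_ev`): the product of the polynomials of `F` and of
`ngR` of the polynomials of `ngF F`; exponent `2 TN^85377 ≤ TN^kU`. -/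

namespace Pool.Agent.H97.XE

open Finset Polynomial Pool.Agent.H37.TE Pool.Agent.H98.TE Pool.Agent.H4.TE Pool.Agent.H4.TP
  Pool.Agent.H4.SX Pool.Agent.H97.XU Pool.Agent.H37.XP

theorem pos_pol {n m B : ℕ} (hn : 3 ≤ n) (hm : 1 ≤ m) (hB : 2 ≤ B) {F : ℤ[X][X][X]}
    (h : HypG n m F) (hF : CB B F) (hR : HR n m F)
    (hc : Alpha (topf n F) ∨ Beta (topf n F) ∨ Gamma (topf n F)) (hp : ¬ Prp m F) :
    ∃ R R' : ℤ[X][X], PB B (TN n m 1 ^ 85377) R ∧ PB B (TN n m 1 ^ 85377) R' ∧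
      ∀ (a : ℕ) (x y : ℤ), B ^ (TN n m 1 ^ kU) ≤ a → ev3 (a : ℤ) x y F = 0 →
        Van R R' (a : ℤ) x y := by
  have hfar := far_all hn hm hB h hF hR hc
  obtain ⟨-, h2, h3⟩ := tn_big hn hm
  obtain ⟨T, hT⟩ : ∃ T, T = TN n m 1 := ⟨_, rfl⟩
  rw [← hT] at hfar h2 h3 ⊢
  have hB1 : 1 ≤ B := by omega
  obtain ⟨R1, R1', hR1, hR1', h4⟩ := half_pol hn hB h2 h hF hR hfar hp
  obtain ⟨R2, R2', hR2, hR2', h5⟩ := half_pol hn hB h2 (h.swap (by omega)) (cb_sw hF) (hr_sw h hR)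
    (far_sw h.H hfar) (fun hq => hp (prp_sw hq))
  have he : (T ^ 232) ^ 368 + (T ^ 232) ^ 368 ≤ T ^ 85377 := by
    have h8 : (T ^ 232) ^ 368 = T ^ 85376 := by rw [← pow_mul]
    rw [h8]
    calc T ^ 85376 + T ^ 85376 = 2 * T ^ 85376 := by ring
      _ ≤ T * T ^ 85376 := Nat.mul_le_mul_right _ h3
      _ = T ^ 85377 := by rw [← pow_succ']
  refine ⟨R1 * R2', R1' * R2, pb_mono hB1 (pb_mul hR1 hR2') he,
    pb_mono hB1 (pb_mul hR1' hR2) he, fun a x y ha hxy => ?_⟩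
  have ha2 : B ^ ((T ^ 232) ^ 366) ≤ a := by
    rw [← pow_mul]
    refine le_trans (Nat.pow_le_pow_right hB1 (Nat.pow_le_pow_right (by omega) ?_)) ha
    unfold kU
    norm_num
  rcases le_total |y| |x| with hle | hle
  · exact van_left (h4 a x y ha2 hle hxy)
  · refine van_right ?_
    have h6 := h5 a y x ha2 hle (by
      rw [Pool.Agent.H98.TE.swF_ev3 h.H]
      exact hxy)
    exact ⟨h6.2, h6.1⟩

theorem all_pol {n m B : ℕ} (hn : 3 ≤ n) (hm : 1 ≤ m) (hB : 2 ≤ B) {F : ℤ[X][X][X]}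
    (h : HypG n m F) (hF : CB B F) (hR : HR n m F)
    (hc : Alpha (topf n F) ∨ Beta (topf n F) ∨ Gamma (topf n F)) (hp : ¬ Prp m F) :
    ∃ R R' : ℤ[X][X], PB B (TN n m 1 ^ kU) R ∧ PB B (TN n m 1 ^ kU) R' ∧
      ∀ a x y : ℤ, (B : ℤ) ^ (TN n m 1 ^ kU) ≤ |a| → ev3 a x y F = 0 → Van R R' a x y := by
  obtain ⟨-, -, h3⟩ := tn_big hn hm
  have hB1 : 1 ≤ B := by omega
  obtain ⟨R1, R1', hR1, hR1', h4⟩ := pos_pol hn hm hB h hF hR hc hp
  obtain ⟨R2, R2', hR2, hR2', h5⟩ := pos_pol hn hm hB (hypG_ng h) (cb_ng hF) (hr_ng hR)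
    (cases_ng hc) (fun hq => hp (prp_ng hq))
  obtain ⟨T, hT⟩ : ∃ T, T = TN n m 1 := ⟨_, rfl⟩
  rw [← hT] at hR1 hR1' h4 hR2 hR2' h5 h3 ⊢
  have he : T ^ 85377 + T ^ 85377 ≤ T ^ kU := by
    calc T ^ 85377 + T ^ 85377 = 2 * T ^ 85377 := by ring
      _ ≤ T * T ^ 85377 := Nat.mul_le_mul_right _ h3
      _ = T ^ 85378 := by rw [← pow_succ']
      _ ≤ T ^ kU := Nat.pow_le_pow_right (by omega) (by unfold kU; norm_num)
  refine ⟨R1 * ngR R2, R1' * ngR R2', pb_mono hB1 (pb_mul hR1 (pb_ng hR2)) he,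
    pb_mono hB1 (pb_mul hR1' (pb_ng hR2')) he, fun a x y ha hxy => ?_⟩
  rcases le_total 0 a with h0 | h0
  · obtain ⟨k, rfl⟩ := Int.eq_ofNat_of_zero_le h0
    have h1 : |((k : ℕ) : ℤ)| = k := abs_of_nonneg h0
    rw [h1] at ha
    exact van_left (h4 k x y (by exact_mod_cast ha) hxy)
  · obtain ⟨k, hk⟩ := Int.eq_ofNat_of_zero_le (neg_nonneg.2 h0)
    have h1 : |a| = k := by
      rw [abs_of_nonpos h0, hk]
    rw [h1] at ha
    have h6 := h5 k x y (by exact_mod_cast ha) (by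
      rw [ev3_ng, ← hk, neg_neg]
      exact hxy)
    refine van_right ⟨?_, ?_⟩
    · rw [ngR_ev, hk]
      exact h6.1
    · rw [ngR_ev, hk]
      exact h6.2

end Pool.Agent.H97.XE
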