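import Pool.Agent.H97.XE.MVE
import Pool.Agent.H97.XE.APL
import Pool.Agent.H4.XV.XUF

/-! # [H97 XE FIN] The theorem with the exponent `2^((3 m n²)!)`

`allP_e`: `all_pol`. `num_e`: as `num_u` (`Pool/Agent/H4/XV/XUF.lean`): `E = TN^100000`, `4 n^2 + 1 ≤ TN`, `E + 2 ≤ TN^100001`, `2 (E+2)^4 + 1 ≤ TN^400006`,
`CE_ge` (`k ≤ 10^9`). -/

namespace Pool.Agent.H97.XE

open Finset Polynomial Pool.Agent.H37.TE Pool.Agent.H98.TE Pool.Agent.H4.TE Pool.Agent.H4.TP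
  Pool.Agent.H97.XU Pool.Agent.H4.SX Pool.Agent.H37.XP Pool.Agent.H4.XV

theorem allP_e {n m : ℕ} (hn : 3 ≤ n) (hm : 1 ≤ m) : AllP n m (TN n m 1 ^ kU) := by
  intro B hB F h hF hR hc hp
  exact all_pol hn hm hB h hF hR hc hp

theorem num_e {n m : ℕ} (hn : 3 ≤ n) (hm : 1 ≤ m) :
    4 * n ^ 2 * (2 * (TN n m 1 ^ kU + 2) ^ 4 + 1) ≤ 2 ^ (3 * m * n ^ 2).factorial := by
  obtain ⟨T, hT⟩ : ∃ T, T = TN n m 1 := ⟨_, rfl⟩
  obtain ⟨k, hk⟩ : ∃ k, k = kU := ⟨_, rfl⟩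
  have h1 : 4 * n ^ 2 + 1 ≤ T := by
    have h2 := EN_ge (d := n) (m := m) (v := 1) hn hm le_rfl
    have h3 : EN n m 1 < T := by
      rw [hT]
      unfold TN
      exact Nat.lt_two_pow_self
    have h4 : n ≤ m * n.factorial := (Nat.self_le_factorial n).trans
      (Nat.le_mul_of_pos_left _ hm)
    have h5 : n ^ 2 ≤ (m * n.factorial) ^ 2 := Nat.pow_le_pow_left h4 2
    have h6 : 1 ≤ n ^ 2 := Nat.one_le_pow _ _ (by omega)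
    omega
  have h9 : 3 ^ 2 ≤ n ^ 2 := Nat.pow_le_pow_left hn 2
  have hT3 : 37 ≤ T := by omega
  have hk1 : 1 ≤ k := by
    rw [hk]
    unfold kU
    norm_num
  have h2 : T ^ (4 * k + 6) ≤ CE n m 1 := by
    rw [hT]
    refine CE_ge hn hm le_rfl ?_
    rw [hk]
    unfold kU
    norm_num
  have h3 : CE n m 1 = 2 ^ (3 * m * n ^ 2).factorial := by
    unfold CE
    congr 2
    ring
  rw [← h3, ← hT, ← hk]
  have h4 : 1 ≤ T ^ k := Nat.one_le_pow _ _ (by omega)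
  have h5 : T ^ k + 2 ≤ T ^ (k + 1) := by
    rw [pow_succ]
    calc T ^ k + 2 ≤ T ^ k * 3 := by omega
      _ ≤ T ^ k * T := Nat.mul_le_mul_left _ (by omega)
  have h6 : (T ^ k + 2) ^ 4 ≤ T ^ (4 * k + 4) := by
    calc (T ^ k + 2) ^ 4 ≤ (T ^ (k + 1)) ^ 4 := Nat.pow_le_pow_left h5 4
      _ = T ^ (4 * k + 4) := by
        rw [← pow_mul]
        congr 1
        ring
  have h7 : 1 ≤ T ^ (4 * k + 4) := Nat.one_le_pow _ _ (by omega)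
  have h8 : 2 * (T ^ k + 2) ^ 4 + 1 ≤ T ^ (4 * k + 5) := by
    rw [pow_succ T (4 * k + 4)]
    calc 2 * (T ^ k + 2) ^ 4 + 1 ≤ T ^ (4 * k + 4) * 3 := by omega
      _ ≤ T ^ (4 * k + 4) * T := Nat.mul_le_mul_left _ (by omega)
  calc 4 * n ^ 2 * (2 * (T ^ k + 2) ^ 4 + 1) ≤ T * T ^ (4 * k + 5) :=
        Nat.mul_le_mul (by omega) h8
    _ = T ^ (4 * k + 6) := by
      rw [← pow_succ']
    _ ≤ CE n m 1 := h2

theorem main_e (n m H : ℕ) (hn : 3 ≤ n) (hm : 1 ≤ m) (F : ℕ → MvPolynomial (Fin 2) ℤ)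
    (hF : ∀ j ≤ m, (F j).totalDegree ≤ n) (hirr : ¬ Dec (famP ℚ m F))
    (hsq : Squarefree (MvPolynomial.map (Int.castRingHom ℚ)
      (MvPolynomial.homogeneousComponent n (F m))))
    (htop : 2 ≤ m → Dec (topP ℂ n m F) → Dec (topP ℚ n m F))
    (hR : ∀ θ : ℝ, MvPolynomial.aeval ![θ, 1] (MvPolynomial.homogeneousComponent n (F m)) = 0 →
      2 * (minpoly ℚ θ).natDegree < n)
    (hH : 2 ≤ H) (hFH : ∀ j ≤ m, ∀ e, |(F j).coeff e| ≤ (H : ℤ)) (hM : ¬ Mult m F) :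
    ∃ R₁ R₂ : ℤ[X][X],
      (∀ R ∈ ({R₁, R₂} : Set ℤ[X][X]), R.natDegree ≤ 2 ^ (3 * m * n ^ 2).factorial ∧
        (∀ i, (R.coeff i).natDegree ≤ 2 ^ (3 * m * n ^ 2).factorial) ∧
        (∀ i j, |(R.coeff i).coeff j| ≤ (H : ℤ) ^ (2 ^ (3 * m * n ^ 2).factorial)) ∧
        ∀ a : ℤ, (H : ℤ) ^ (2 ^ (3 * m * n ^ 2).factorial) ≤ |a| → R.map (evalRingHom a) ≠ 0) ∧
      ∀ a x y : ℤ, (H : ℤ) ^ (2 ^ (3 * m * n ^ 2).factorial) ≤ |a| →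
        ∑ j ∈ range (m + 1), a ^ j * MvPolynomial.eval ![x, y] (F j) = 0 →
        (R₁.map (evalRingHom a)).eval x = 0 ∧ (R₂.map (evalRingHom a)).eval y = 0 := by
  obtain ⟨K, hK⟩ : ∃ K, K = 2 ^ (3 * m * n ^ 2).factorial := ⟨_, rfl⟩
  obtain ⟨E, hE⟩ : ∃ E, E = TN n m 1 ^ kU := ⟨_, rfl⟩
  have h1 := num_e hn hm
  have h2 := allP_e hn hm
  rw [← hK] at h1 ⊢
  rw [← hE] at h1 h2
  have hE1 : 1 ≤ E := by
    rw [hE]
    refine Nat.one_le_pow _ _ ?_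
    unfold TN
    exact Nat.one_le_two_pow
  exact main_eK hn hm hE1 h1 h2 F hF hirr hsq htop hR hH hFH hM

end Pool.Agent.H97.XE
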