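import Pool.Agent.H97.XU.AUZ

/-!
# [H97 XE] MP_821da1_nt, THEOREM XE: the integer points of all members lie on an explicit curve, definitions

`F ∈ ℤ[t][x][y]` as in `Pool/Agent/H97/XU` (`HypG n m F`, `HR n m F`, `CB B F`).
The theorem: there are `R, R' ∈ ℤ[t][X]`, of explicit degree and size, which do NOT depend on the member, with
`R(a, x) = 0 = R'(a, y)` for all integer points `(x, y)` of `F(a, x, y) = 0` and all `a` with `|a|` large (explicit).
`nrm R`: the sum of the absolute values of the coefficients. `PB B E R`: `R ≠ 0`, both degrees at most `E`, `nrm R ≤ B^E`.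
-/

namespace Pool.Agent.H97.XE

open Finset Polynomial Pool.Agent.H37.TE Pool.Agent.H98.TE Pool.Agent.H4.TP Pool.Agent.H4.SX
  Pool.Agent.H97.XU Pool.Agent.H37.XP

/-- the sum of the absolute values of the coefficients -/
noncomputable def nrm (R : ℤ[X][X]) : ℕ := R.sum fun _ p => p.sum fun _ c => c.natAbs

/-- `R ≠ 0`, degrees at most `E`, sum of the absolute values of the coefficients at most `B ^ E` -/
def PB (B E : ℕ) (R : ℤ[X][X]) : Prop := R ≠ 0 ∧ BD E E R ∧ nrm R ≤ B ^ E

/-- `R` and `R'` vanish at `(a, x)` and `(a, y)` -/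
def Van (R R' : ℤ[X][X]) (a x y : ℤ) : Prop := evalEval a x R = 0 ∧ evalEval a y R' = 0

end Pool.Agent.H97.XE
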