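import Pool.Agent.H97.XE.WPL

/-! # [H97 XE HPL] All points with `|y| ≤ |x|`

`half_pol` is `half_u` (`Pool/Agent/H97/XU/HFU.lean`): the same proof with `win_pol`, `small_pol` in place of `win_cnt`, `small_cnt`; products over the
windows `j ∈ Icc n (C0 Q)` (at most `T`), times the polynomials of `small_pol`: exponent `T * T^366 + (n+m+5)^5 ≤ T^368`. Nothing depends on `a`. -/

namespace Pool.Agent.H97.XE

open Finset Polynomial Pool.Agent.H37.TE Pool.Agent.H98.TE Pool.Agent.H4.TP Pool.Agent.H4.SX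
  Pool.Agent.H97.XU Pool.Agent.H37.XP

theorem half_pol {n m B C0 T : ℕ} (hn : 3 ≤ n) (hB : 2 ≤ B)
    (hT : (C0 + 2) * (2 * n ^ 2) + n + m + 4 ≤ T) {F : ℤ[X][X][X]} (h : HypG n m F)
    (hF : CB B F) (hR : HR n m F) (hfar : Far B C0 F) (hp : ¬ Prp m F) :
    ∃ R R' : ℤ[X][X], PB B (T ^ 368) R ∧ PB B (T ^ 368) R' ∧ ∀ (a : ℕ) (x y : ℤ),
      B ^ (T ^ 366) ≤ a → |y| ≤ |x| → ev3 (a : ℤ) x y F = 0 → Van R R' (a : ℤ) x y := by
  classical
  obtain ⟨Q, hQ⟩ : ∃ Q, Q = 2 * n ^ 2 := ⟨_, rfl⟩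
  rw [← hQ] at hT
  have hQ1 : 1 ≤ Q := by
    rw [hQ]
    nlinarith
  have hQ18 : 18 ≤ Q := by
    rw [hQ]
    nlinarith
  have hTe : (C0 + 2) * Q = C0 * Q + 2 * Q := by ring
  rw [hTe] at hT
  have hC0Q : C0 ≤ C0 * Q := Nat.le_mul_of_pos_right _ (by omega)
  have hT1 : 1 ≤ T := by omega
  have hnm : n + m + 5 ≤ T := by omega
  have hpT : ∀ i j : ℕ, i ≤ j → T ^ i ≤ T ^ j := fun i j hij => Nat.pow_le_pow_right hT1 hij
  have hB1 : 0 < B := by omega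
  obtain ⟨R0, R0', hR0, hR0', hS0⟩ := small_pol (n := n) (m := m) (by omega) hB h hF hp
  have hwin : ∀ j : ℕ, ∃ R R' : ℤ[X][X], n ≤ j → j ≤ C0 * Q → (PB B (T ^ 366) R ∧
      PB B (T ^ 366) R' ∧ ∀ (a : ℕ) (x y : ℤ), B ^ (T ^ 366) ≤ a → ev3 (a : ℤ) x y F = 0 →
        |y| ≤ |x| → (a : ℤ) ^ j ≤ |x| ^ Q → |x| ^ Q ≤ (a : ℤ) ^ (j + 1) →
        Van R R' (a : ℤ) x y) := by
    intro j
    by_cases hj : n ≤ j ∧ j ≤ C0 * Q
    · obtain ⟨R, R', hh⟩ := win_pol hn hB hQ1 hj.1 (T := T) (by omega) h hF hR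
      exact ⟨R, R', fun _ _ => hh⟩
    · exact ⟨1, 1, fun h1 h2 => absurd ⟨h1, h2⟩ hj⟩
  choose W W' hW using hwin
  have hcard : (Finset.Icc n (C0 * Q)).card ≤ T := by
    rw [Nat.card_Icc]
    omega
  have hexp : (n + m + 5) ^ 5 + (Finset.Icc n (C0 * Q)).card * T ^ 366 ≤ T ^ 368 := by
    have h1 : (n + m + 5) ^ 5 ≤ T ^ 367 :=
      (Nat.pow_le_pow_left hnm 5).trans (hpT 5 367 (by norm_num))
    have h2 : (Finset.Icc n (C0 * Q)).card * T ^ 366 ≤ T ^ 367 := by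
      calc (Finset.Icc n (C0 * Q)).card * T ^ 366 ≤ T * T ^ 366 := Nat.mul_le_mul_right _ hcard
        _ = T ^ 367 := by ring
    have h3 : 2 * T ^ 367 ≤ T ^ 368 := by
      calc 2 * T ^ 367 ≤ T * T ^ 367 := Nat.mul_le_mul_right _ (by omega)
        _ = T ^ 368 := by ring
    omega
  refine ⟨R0 * ∏ j ∈ Finset.Icc n (C0 * Q), W j, R0' * ∏ j ∈ Finset.Icc n (C0 * Q), W' j,
    ?_, ?_, fun a x y ha hyx hxy => ?_⟩
  · refine pb_mono (by omega) (pb_mul hR0 (pb_prod _ _ fun j hj => ?_)) hexp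
    rw [Finset.mem_Icc] at hj
    exact (hW j hj.1 hj.2).1
  · refine pb_mono (by omega) (pb_mul hR0' (pb_prod _ _ fun j hj => ?_)) hexp
    rw [Finset.mem_Icc] at hj
    exact (hW j hj.1 hj.2).2.1
  have haB : 2 ≤ a := by
    have h0 : 0 < T ^ 366 := Nat.pow_pos hT1
    have h1 : B ^ 1 ≤ B ^ (T ^ 366) := Nat.pow_le_pow_right hB1 h0
    rw [pow_one] at h1
    omega
  have ha5 : B ^ ((n + m + 5) ^ 5) ≤ a := by
    refine le_trans (Nat.pow_le_pow_right hB1 ?_) ha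
    exact (Nat.pow_le_pow_left hnm 5).trans (hpT 5 366 (by norm_num))
  have haC : B ^ C0 ≤ a := by
    refine le_trans (Nat.pow_le_pow_right hB1 ?_) ha
    calc C0 ≤ T := by omega
      _ = T ^ 1 := (pow_one T).symm
      _ ≤ T ^ 366 := hpT 1 366 (by norm_num)
  by_cases hsm : |x| ^ (2 * n) ≤ (a : ℤ)
  · exact van_left (hS0 a x y ha5 hxy hyx hsm)
  · apply van_right
    push Not at hsm
    have ha1 : 1 < a := by omega
    have hxa : (a : ℤ) < ((x.natAbs : ℤ)) ^ (2 * n) := by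
      rw [Int.natCast_natAbs]
      exact hsm
    have hxa' : a < x.natAbs ^ (2 * n) := by exact_mod_cast hxa
    obtain ⟨Y, hY⟩ : ∃ Y, Y = x.natAbs ^ Q := ⟨_, rfl⟩
    have hYz : |x| ^ Q = (Y : ℤ) := by
      rw [hY, ← Int.natCast_natAbs]
      push_cast
      rfl
    have hYn : a ^ n ≤ Y := by
      have h1 : Q = 2 * n * n := by rw [hQ]; ring
      rw [hY, h1, pow_mul]
      exact Nat.pow_le_pow_left hxa'.le n
    have hY0 : Y ≠ 0 := by
      have : 0 < a ^ n := by positivity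
      omega
    obtain ⟨hx1, -⟩ := hfar a haC x y hxy
    have hx2 : x.natAbs ≤ a ^ C0 := by
      have : (x.natAbs : ℤ) ≤ (a : ℤ) ^ C0 := by
        rw [Int.natCast_natAbs]
        exact hx1
      exact_mod_cast this
    have hYC : Y ≤ a ^ (C0 * Q) := by
      rw [hY, pow_mul]
      exact Nat.pow_le_pow_left hx2 Q
    obtain ⟨j, hj⟩ : ∃ j, j = Nat.log a Y := ⟨_, rfl⟩
    have hj1 : a ^ j ≤ Y := by
      rw [hj]
      exact Nat.pow_log_le_self a hY0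
    have hj2 : Y < a ^ (j + 1) := by
      rw [hj]
      exact Nat.lt_pow_succ_log_self ha1 Y
    have hjn : n ≤ j := by
      have h5 : a ^ n < a ^ (j + 1) := lt_of_le_of_lt hYn hj2
      have h6 := (Nat.pow_lt_pow_iff_right ha1).1 h5
      omega
    have hjC : j ≤ C0 * Q := (Nat.pow_le_pow_iff_right ha1).1 (hj1.trans hYC)
    refine van_prod (Finset.mem_Icc.2 ⟨hjn, hjC⟩) ((hW j hjn hjC).2.2 a x y ha hxy hyx ?_ ?_)
    · rw [hYz]
      exact_mod_cast hj1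
    · rw [hYz]
      exact_mod_cast hj2.le

end Pool.Agent.H97.XE
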