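import Pool.Agent.H97.XE.SUM
import Pool.Agent.H4.XV.MVU

/-! # [H97 XE MVE] The theorem for families of polynomials in two variables, from the one for `HypG`

`AllP n m E`: the statement of `all_pol` with an exponent `E`. `main_eK` is `main_uK` (`Pool/Agent/H4/XV/MVU.lean`): the same linear substitution
`good_linU`, `B = H^(4 n^2)` (`cb_lin`), `hyp_of`, `hr_lin`, `mult_of`, `mult_lin`; the polynomials `R, R'` for the new coordinates `x' = δ x - β y`, `y' = -γ x + α y`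
(`hzero` in `main_uK`), and `sum_pol` for `x = α x' + β y'` and `y = γ x' + δ y'` (`|α|, …, |δ| ≤ n^2 + 1 ≤ H^(4 n^2)`) give `R₁, R₂` with `PB B ((E+2)^4)`, so
`PB H (4 n^2 (E+2)^4)` (`pb_base`), `pb_mono`, `pb_coeff`, `pb_map_ne`. -/

namespace Pool.Agent.H97.XE

open Finset Polynomial Pool.Agent.H37.TE Pool.Agent.H98.TE Pool.Agent.H4.TE Pool.Agent.H4.TP
  Pool.Agent.H97.XU Pool.Agent.H4.SX Pool.Agent.H4.XV

/-- the theorem for `HypG`, with the exponent `E` -/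
def AllP (n m E : ℕ) : Prop :=
  ∀ B : ℕ, 2 ≤ B → ∀ F : ℤ[X][X][X], HypG n m F → CB B F → HR n m F →
    (Alpha (topf n F) ∨ Beta (topf n F) ∨ Gamma (topf n F)) → ¬ Prp m F →
    ∃ R R' : ℤ[X][X], PB B E R ∧ PB B E R' ∧
      ∀ a x y : ℤ, (B : ℤ) ^ E ≤ |a| → ev3 a x y F = 0 → Van R R' a x y

theorem main_eK {n m E K H : ℕ} (hn : 3 ≤ n) (hm : 1 ≤ m) (hE : 1 ≤ E)
    (hK : 4 * n ^ 2 * (2 * (E + 2) ^ 4 + 1) ≤ K) (hA : AllP n m E)
    (F : ℕ → MvPolynomial (Fin 2) ℤ)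
    (hF : ∀ j ≤ m, (F j).totalDegree ≤ n) (hirr : ¬ Dec (famP ℚ m F))
    (hsq : Squarefree (MvPolynomial.map (Int.castRingHom ℚ)
      (MvPolynomial.homogeneousComponent n (F m))))
    (htop : 2 ≤ m → Dec (topP ℂ n m F) → Dec (topP ℚ n m F))
    (hR : ∀ θ : ℝ, MvPolynomial.aeval ![θ, 1] (MvPolynomial.homogeneousComponent n (F m)) = 0 →
      2 * (minpoly ℚ θ).natDegree < n)
    (hH : 2 ≤ H) (hFH : ∀ j ≤ m, ∀ e, |(F j).coeff e| ≤ (H : ℤ)) (hM : ¬ Mult m F) :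
    ∃ R₁ R₂ : ℤ[X][X], (∀ R ∈ ({R₁, R₂} : Set ℤ[X][X]), R.natDegree ≤ K ∧
        (∀ i, (R.coeff i).natDegree ≤ K) ∧ (∀ i j, |(R.coeff i).coeff j| ≤ (H : ℤ) ^ K) ∧
        ∀ a : ℤ, (H : ℤ) ^ K ≤ |a| → R.map (evalRingHom a) ≠ 0) ∧
      ∀ a x y : ℤ, (H : ℤ) ^ K ≤ |a| →
        ∑ j ∈ range (m + 1), a ^ j * MvPolynomial.eval ![x, y] (F j) = 0 →
        (R₁.map (evalRingHom a)).eval x = 0 ∧ (R₂.map (evalRingHom a)).eval y = 0 := by
  have hQ : MvPolynomial.homogeneousComponent n (F m) ≠ 0 := by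
    intro h0
    rw [h0, map_zero] at hsq
    exact hsq.ne_zero rfl
  obtain ⟨α, β, γ, δ, hdet, hc0, hc1, hα, hβ, hγ, hδ⟩ := good_linU hQ
  obtain ⟨G, hG⟩ : ∃ G : ℕ → MvPolynomial (Fin 2) ℤ, G = fun j => lin α β γ δ (F j) := ⟨_, rfl⟩
  have hGj : ∀ j, G j = lin α β γ δ (F j) := fun j => by rw [hG]
  have hev : ∀ (x y : ℤ) (p : MvPolynomial (Fin 2) ℤ), MvPolynomial.eval ![x, y]
      (lin α β γ δ p) = MvPolynomial.eval ![α * x + β * y, γ * x + δ * y] p := by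
    intro x y p
    have h1 := lin_eval (α := α) (β := β) (γ := γ) (δ := δ) x y p
    rw [MvPolynomial.aeval_eq_eval, MvPolynomial.aeval_eq_eval] at h1
    simpa using h1
  have hG1 : MvPolynomial.eval ![0, 1] (MvPolynomial.homogeneousComponent n (G m)) ≠ 0 := by
    rw [hGj, lin_homog, hev]
    simpa using hc1
  obtain ⟨a1, a3⟩ := hyp_of (n := n) (m := m) (F := G) (by omega) hm
    (fun j hj => by rw [hGj, lin_tot hdet]; exact hF j hj)
    (by rw [hG, famP_lin, dec_lin hdet]; exact hirr)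
    (by rw [hGj, lin_homog, lin_map]; exact sqf_lin hdet hsq)
    (by rw [hG, topP_lin, topP_lin, dec_lin hdet, dec_lin hdet]; exact htop)
    (by
      rw [hGj, lin_homog, hev]
      simpa using hc0) hG1
  have hHR : HR n m (F3 m G) := by
    rw [hG]
    exact hr_lin hn F hdet hQ hR
  have hCB : CB (H ^ (4 * n ^ 2)) (F3 m G) := by
    rw [hG]
    exact cb_lin hn hH hα hβ hγ hδ hF hFH
  have hH1 : (1 : ℤ) ≤ H := by exact_mod_cast (by omega : 1 ≤ H)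
  have hn2 : 1 ≤ n ^ 2 := Nat.one_le_pow _ _ (by omega)
  have hB2 : 2 ≤ H ^ (4 * n ^ 2) := hH.trans (Nat.le_self_pow (by omega) H)
  have hM' : ¬ Prp m (F3 m G) := by
    intro h
    apply hM
    have hGm : G m ≠ 0 := by
      intro h0
      rw [h0, map_zero, map_zero] at hG1
      exact hG1 rfl
    have h1 := mult_of hGm h
    rw [hG] at h1
    exact mult_lin hdet h1
  obtain ⟨R, R', hR1, hR2, hv⟩ := hA (H ^ (4 * n ^ 2)) hB2 (F3 m G) a1 hCB hHR a3 hM'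
  have hsm : n ^ 2 + 1 ≤ H ^ (4 * n ^ 2) := by
    have h0 : 4 * n ^ 2 < 2 ^ (4 * n ^ 2) := Nat.lt_two_pow_self
    have h1 : 2 ^ (4 * n ^ 2) ≤ H ^ (4 * n ^ 2) := Nat.pow_le_pow_left hH _
    omega
  have hsm' : (n : ℤ) ^ 2 + 1 ≤ ((H ^ (4 * n ^ 2) : ℕ) : ℤ) := by exact_mod_cast hsm
  obtain ⟨R₁, hP1, hv1⟩ := sum_pol hB2 hR1 hR2 (hα.trans hsm') (hβ.trans hsm')
  obtain ⟨R₂, hP2, hv2⟩ := sum_pol hB2 hR1 hR2 (hγ.trans hsm') (hδ.trans hsm')
  have ex : ∀ x y : ℤ, α * (δ * x - β * y) + β * (-γ * x + α * y) = x := fun x y => by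
    linear_combination x * hdet
  have ey : ∀ x y : ℤ, γ * (δ * x - β * y) + δ * (-γ * x + α * y) = y := fun x y => by
    linear_combination y * hdet
  have hzero : ∀ a x y : ℤ, ∑ j ∈ range (m + 1), a ^ j * MvPolynomial.eval ![x, y] (F j) = 0 →
      ev3 a (δ * x - β * y) (-γ * x + α * y) (F3 m G) = 0 := by
    intro a x y hxy
    rw [ev3_f3, ← hxy]
    refine sum_congr rfl fun j _ => ?_
    rw [MvPolynomial.aeval_eq_eval, hGj]
    congr 1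
    have h1 := hev (δ * x - β * y) (-γ * x + α * y) (F j)
    rw [ex, ey] at h1
    exact h1
  obtain ⟨P, hP⟩ : ∃ P, P = (E + 2) ^ 4 := ⟨_, rfl⟩
  rw [← hP] at hK hP1 hP2
  have hEP : E ≤ 2 * P + 1 := by
    have h1 : E + 2 ≤ (E + 2) ^ 4 := Nat.le_self_pow (by norm_num) _
    omega
  have hPK : 4 * n ^ 2 * P ≤ K :=
    (Nat.mul_le_mul_left _ (by omega : P ≤ 2 * P + 1)).trans hK
  have haB : ∀ (e : ℕ) (a : ℤ), e ≤ 2 * P + 1 → (H : ℤ) ^ K ≤ |a| →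
      ((H ^ (4 * n ^ 2) : ℕ) : ℤ) ^ e ≤ |a| := by
    intro e a he ha
    push_cast
    rw [← pow_mul]
    exact (pow_le_pow_right₀ hH1 ((Nat.mul_le_mul_left _ he).trans hK)).trans ha
  have hall : ∀ S : ℤ[X][X], PB (H ^ (4 * n ^ 2)) P S → S.natDegree ≤ K ∧
      (∀ i, (S.coeff i).natDegree ≤ K) ∧ (∀ i j, |(S.coeff i).coeff j| ≤ (H : ℤ) ^ K) ∧
      ∀ a : ℤ, (H : ℤ) ^ K ≤ |a| → S.map (evalRingHom a) ≠ 0 := by
    intro S hS
    have h1 := pb_mono (by omega : 1 ≤ H) (pb_base (by omega : 1 ≤ 4 * n ^ 2) hS) hPK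
    refine ⟨h1.2.1.1, h1.2.1.2, fun i j => pb_coeff h1 i j, fun a ha => ?_⟩
    exact pb_map_ne hB2 hS (haB _ a le_rfl ha)
  have hev2 : ∀ (S : ℤ[X][X]) (a x : ℤ), evalEval a x S = 0 → (S.map (evalRingHom a)).eval x = 0 := by
    intro S a x h
    rw [eval_map, eval₂_evalRingHom]
    exact h
  refine ⟨R₁, R₂, ?_, fun a x y ha hxy => ?_⟩
  · intro S hS
    rcases hS with rfl | hS
    · exact hall _ hP1
    · rw [Set.mem_singleton_iff] at hS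
      rw [hS]
      exact hall _ hP2
  · obtain ⟨g1, g2⟩ := hv a _ _ (haB E a hEP ha) (hzero a x y hxy)
    have e1 := hv1 a _ _ g1 g2
    have e2 := hv2 a _ _ g1 g2
    rw [ex] at e1
    rw [ey] at e2
    exact ⟨hev2 _ _ _ e1, hev2 _ _ _ e2⟩

end Pool.Agent.H97.XE
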