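import Pool.Agent.H97.XE.XEA

/-! # [H97 XE SUM] A polynomial for `α x + β y` from polynomials for `x` and `y`

`p, q` the degrees (in `X`) of `P, Q`. If `p = 0`: `R = P` (`P = C P_0`, `P_0(u) = 0`); the same for `q = 0`. Otherwise let `c = lc P * lc Q ∈ ℤ[t]` (`≠ 0`),
`N = Fin p × Fin q`, and let `M : Matrix N N ℤ[X]` be the matrix of the multiplication by `c (α X + β Y)` in the basis `X^i Y^j`:
row `(i, j)`: `c α` at `(i+1, j)` if `i + 1 < p`; if `i + 1 = p`, `- α lc Q P_k` at `(k, j)` for all `k < p`; and the same for `Y`. For all integers `u, x, y` with `P(u, x) = 0`,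
`Q(u, y) = 0` the vector `v = (x^i y^j)` satisfies `M(u) v = c(u) (α x + β y) v`, and `v (0, 0) = 1`, so `det (c(u) s I - M(u)) = 0`, `s = α x + β y`
(`Matrix.exists_mulVec_eq_zero_iff` over `ℤ`). `R = det (X • (c • 1).map C + (-M).map C) ∈ ℤ[t][X]`; `Polynomial.coeff_det_X_add_C_card`: the coefficient of
`X^(p q)` is `det (c • 1) = c^(p q) ≠ 0`.
Sizes: every entry has degree `≤ 1` in `X`, `≤ 2 E` in `t`, and `nrm ≤ B^(2E) + 2 B * B^(2E) ≤ B^(2E + 3)` (`nrm_mul_le`); the determinant is a sum of `(p q)!` products of `p q`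
entries (`Matrix.det_apply`), `p q ≤ E^2`, `(p q)! ≤ (p q)^(p q) ≤ B^((p q)^2)`: `nrm R ≤ B^(E^2 (E^2 + 2 E + 3)) ≤ B^((E+2)^4)`, degree in `t` at most
`2 E * E^2`, degree in `X` at most `E^2`. -/

namespace Pool.Agent.H97.XE

open Finset Polynomial Pool.Agent.H37.TE Pool.Agent.H98.TE Pool.Agent.H4.TP Pool.Agent.H4.SX
  Pool.Agent.H97.XU Pool.Agent.H37.XP

private theorem bd_mono {d e d' e' : ℕ} {P : ℤ[X][X]} (h : BD d e P) (hd : d ≤ d') (he : e ≤ e') : BD d' e' P :=
  ⟨h.1.trans he, fun j => (h.2 j).trans hd⟩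

private theorem bd_one (d e : ℕ) : BD d e (1 : ℤ[X][X]) := by
  refine ⟨by simp, fun j => ?_⟩
  rw [coeff_one]
  split_ifs <;> simp

private theorem bd_neg {d e : ℕ} {P : ℤ[X][X]} (h : BD d e P) : BD d e (-P) := by
  refine ⟨by rw [natDegree_neg]; exact h.1, fun j => ?_⟩
  rw [coeff_neg, natDegree_neg]
  exact h.2 j

private theorem bd_add {d e : ℕ} {P Q : ℤ[X][X]} (h : BD d e P) (h' : BD d e Q) : BD d e (P + Q) := by
  refine ⟨(natDegree_add_le _ _).trans (max_le h.1 h'.1), fun j => ?_⟩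
  rw [coeff_add]
  exact (natDegree_add_le _ _).trans (max_le (h.2 j) (h'.2 j))

private theorem bd_mul {d1 e1 d2 e2 : ℕ} {P Q : ℤ[X][X]} (h1 : BD d1 e1 P) (h2 : BD d2 e2 Q) :
    BD (d1 + d2) (e1 + e2) (P * Q) := by
  refine ⟨natDegree_mul_le.trans (Nat.add_le_add h1.1 h2.1), fun j => ?_⟩
  rw [coeff_mul]
  refine natDegree_sum_le_of_forall_le _ _ (fun x _ => ?_)
  exact natDegree_mul_le.trans (Nat.add_le_add (h1.2 _) (h2.2 _))

private theorem bd_sum {ι : Type*} {d e : ℕ} (s : Finset ι) (f : ι → ℤ[X][X]) (h : ∀ i ∈ s, BD d e (f i)) :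
    BD d e (∑ i ∈ s, f i) := by
  refine ⟨natDegree_sum_le_of_forall_le _ _ (fun i hi => (h i hi).1), fun j => ?_⟩
  rw [finsetSum_coeff]
  exact natDegree_sum_le_of_forall_le _ _ (fun i hi => (h i hi).2 j)

private theorem bd_prod {ι : Type*} {d e : ℕ} (s : Finset ι) (f : ι → ℤ[X][X]) (h : ∀ i ∈ s, BD d e (f i)) :
    BD (s.card * d) (s.card * e) (∏ i ∈ s, f i) := by
  classical
  induction s using Finset.induction_on with
  | empty => simpa using bd_one 0 0
  | insert a s ha ih =>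
    rw [prod_insert ha, card_insert_of_notMem ha]
    have h1 := bd_mul (h a (mem_insert_self _ _)) (ih (fun i hi => h i (mem_insert_of_mem hi)))
    refine bd_mono h1 (le_of_eq ?_) (le_of_eq ?_) <;> ring

private theorem bd_C {d : ℕ} {a : ℤ[X]} (h : a.natDegree ≤ d) : BD d 0 (C a) := by
  refine ⟨by simp, fun j => ?_⟩
  rw [coeff_C]
  split_ifs
  · exact h
  · simp

private theorem det_bd {N : Type*} [Fintype N] [DecidableEq N] (D : Matrix N N ℤ[X][X]) {d e K : ℕ}
    (hb : ∀ i j, BD d e (D i j)) (hK : ∀ i j, nrm (D i j) ≤ K) :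
    BD (Fintype.card N * d) (Fintype.card N * e) D.det ∧
      nrm D.det ≤ (Fintype.card N).factorial * K ^ Fintype.card N := by
  have hs : ∀ (σ : Equiv.Perm N) (P : ℤ[X][X]), Equiv.Perm.sign σ • P = P ∨ Equiv.Perm.sign σ • P = -P := by
    intro σ P
    rcases Int.units_eq_one_or (Equiv.Perm.sign σ) with h | h
    · left
      rw [h, one_smul]
    · right
      rw [h, Units.neg_smul, one_smul]
  rw [Matrix.det_apply]
  constructor
  · refine bd_sum _ _ fun σ _ => ?_
    have h1 : BD (Fintype.card N * d) (Fintype.card N * e) (∏ i, D (σ i) i) := by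
      have := bd_prod Finset.univ (fun i => D (σ i) i) (fun i _ => hb _ _)
      rwa [card_univ] at this
    rcases hs σ (∏ i, D (σ i) i) with h | h
    · rw [h]
      exact h1
    · rw [h]
      exact bd_neg h1
  · refine (nrm_sum_le _ _).trans ?_
    have h1 : ∀ σ : Equiv.Perm N, nrm (Equiv.Perm.sign σ • ∏ i, D (σ i) i) ≤ K ^ Fintype.card N := by
      intro σ
      have h2 : nrm (∏ i, D (σ i) i) ≤ K ^ Fintype.card N := by
        refine (nrm_prod_le _ _).trans ?_
        refine (prod_le_prod' (fun i _ => hK _ _)).trans ?_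
        rw [prod_const, card_univ]
      rcases hs σ (∏ i, D (σ i) i) with h | h
      · rw [h]
        exact h2
      · rw [h, nrm_neg]
        exact h2
    refine (sum_le_sum fun σ _ => h1 σ).trans ?_
    rw [sum_const, card_univ, Fintype.card_perm, smul_eq_mul]

/-- the matrix of the multiplication by `lc P * X` on `1, X, ..., X^(p-1)` modulo `P` -/
private noncomputable def cp (P : ℤ[X][X]) (i k : Fin P.natDegree) : ℤ[X] :=
  if (i : ℕ) + 1 < P.natDegree then (if (k : ℕ) = i + 1 then P.leadingCoeff else 0) else -P.coeff k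

private theorem cp_ev {P : ℤ[X][X]} {u x : ℤ} (h : evalEval u x P = 0) (i : Fin P.natDegree) :
    ∑ k : Fin P.natDegree, (cp P i k).eval u * x ^ (k : ℕ) = P.leadingCoeff.eval u * x ^ ((i : ℕ) + 1) := by
  by_cases hi : (i : ℕ) + 1 < P.natDegree
  · rw [Finset.sum_eq_single (⟨(i : ℕ) + 1, hi⟩ : Fin P.natDegree)]
    · rw [cp, if_pos hi, if_pos rfl]
    · intro k _ hk
      rw [cp, if_pos hi, if_neg fun h1 => hk (Fin.ext h1), eval_zero, zero_mul]
    · intro h1
      exact absurd (mem_univ _) h1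
  · have hp : (i : ℕ) + 1 = P.natDegree := by
      have := i.2
      omega
    have h1 : ∑ k ∈ range (P.natDegree + 1), (P.coeff k).eval u * x ^ k = 0 := by
      rw [← eval₂_evalRingHom, eval₂_eq_sum_range] at h
      exact h
    rw [sum_range_succ, ← Fin.sum_univ_eq_sum_range (fun k => (P.coeff k).eval u * x ^ k)] at h1
    have h2 : ∀ k : Fin P.natDegree, (cp P i k).eval u * x ^ (k : ℕ) = -((P.coeff k).eval u * x ^ (k : ℕ)) := by
      intro k
      rw [cp, if_neg hi, eval_neg, neg_mul]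
    rw [sum_congr rfl fun k _ => h2 k, sum_neg_distrib, hp]
    change _ = (P.coeff P.natDegree).eval u * _
    linear_combination -h1

private theorem cp_bd {E : ℕ} {P : ℤ[X][X]} (h : BD E E P) (i k : Fin P.natDegree) : (cp P i k).natDegree ≤ E := by
  unfold cp
  split_ifs
  · exact h.2 _
  · simp
  · rw [natDegree_neg]
    exact h.2 _

private theorem nrm_C_coeff (P : ℤ[X][X]) (i : ℕ) : nrm (C (P.coeff i)) ≤ nrm P := nrm_monomial_coeff_le P i 0

private theorem cp_nrm (P : ℤ[X][X]) (i k : Fin P.natDegree) : nrm (C (cp P i k)) ≤ nrm P := by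
  unfold cp
  split_ifs
  · exact nrm_C_coeff P _
  · rw [C_0, nrm_zero]
    exact Nat.zero_le _
  · rw [C_neg, nrm_neg]
    exact nrm_C_coeff P _

private theorem nrm_CC (α : ℤ) : nrm (C (C α)) = α.natAbs := by
  unfold nrm
  rw [sum_C_index (by rw [sum_zero_index]), sum_C_index (by rfl)]

private theorem nrm_X : nrm (X : ℤ[X][X]) ≤ 1 := by
  have h1 := nrm_monomial_coeff_le (1 : ℤ[X][X]) 0 1
  rw [coeff_one_zero, nrm_one] at h1
  exact h1

/-- the matrix of the multiplication by `α X + β Y` -/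
private noncomputable def Mm (α β : ℤ) (P Q : ℤ[X][X]) :
    Matrix (Fin P.natDegree × Fin Q.natDegree) (Fin P.natDegree × Fin Q.natDegree) ℤ[X] :=
  fun a b => (if a.2 = b.2 then C α * Q.leadingCoeff * cp P a.1 b.1 else 0) +
    (if a.1 = b.1 then C β * P.leadingCoeff * cp Q a.2 b.2 else 0)

private noncomputable def Dd (α β : ℤ) (P Q : ℤ[X][X]) :
    Matrix (Fin P.natDegree × Fin Q.natDegree) (Fin P.natDegree × Fin Q.natDegree) ℤ[X][X] :=
  (X : ℤ[X][X]) • ((P.leadingCoeff * Q.leadingCoeff) • (1 : Matrix (Fin P.natDegree × Fin Q.natDegree)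
    (Fin P.natDegree × Fin Q.natDegree) ℤ[X])).map C + (-(Mm α β P Q)).map C

private theorem Dd_apply (α β : ℤ) (P Q : ℤ[X][X]) (a b : Fin P.natDegree × Fin Q.natDegree) :
    Dd α β P Q a b = (if a = b then X * (C P.leadingCoeff * C Q.leadingCoeff) else 0) +
      (-((if a.2 = b.2 then C (C α) * C Q.leadingCoeff * C (cp P a.1 b.1) else 0) +
        (if a.1 = b.1 then C (C β) * C P.leadingCoeff * C (cp Q a.2 b.2) else 0))) := by
  unfold Dd Mm
  rw [Matrix.add_apply, Matrix.smul_apply, Matrix.map_apply, Matrix.map_apply, Matrix.smul_apply,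
    Matrix.neg_apply, Matrix.one_apply]
  split_ifs <;> simp [C_mul]

theorem sum_pol {B E : ℕ} (hB : 2 ≤ B) {P Q : ℤ[X][X]} (hP : PB B E P) (hQ : PB B E Q) {α β : ℤ}
    (hα : |α| ≤ (B : ℤ)) (hβ : |β| ≤ (B : ℤ)) :
    ∃ R : ℤ[X][X], PB B ((E + 2) ^ 4) R ∧ ∀ u x y : ℤ, evalEval u x P = 0 → evalEval u y Q = 0 →
      evalEval u (α * x + β * y) R = 0 := by
  classical
  have hB1 : 1 ≤ B := by omega
  have hE4 : E ≤ (E + 2) ^ 4 := by nlinarith [Nat.zero_le (E ^ 4), Nat.zero_le (E ^ 3), Nat.zero_le (E ^ 2)]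
  by_cases hp : P.natDegree = 0
  · refine ⟨P, pb_mono hB1 hP hE4, fun u x y h _ => ?_⟩
    rw [eq_C_of_natDegree_eq_zero hp] at h ⊢
    rw [evalEval_C] at h ⊢
    exact h
  by_cases hq : Q.natDegree = 0
  · refine ⟨Q, pb_mono hB1 hQ hE4, fun u x y _ h => ?_⟩
    rw [eq_C_of_natDegree_eq_zero hq] at h ⊢
    rw [evalEval_C] at h ⊢
    exact h
  have hlP : P.leadingCoeff ≠ 0 := leadingCoeff_ne_zero.2 hP.1
  have hlQ : Q.leadingCoeff ≠ 0 := leadingCoeff_ne_zero.2 hQ.1
  have hcard : Fintype.card (Fin P.natDegree × Fin Q.natDegree) = P.natDegree * Q.natDegree := by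
    rw [Fintype.card_prod, Fintype.card_fin, Fintype.card_fin]
  have hα' : α.natAbs ≤ B := by
    rw [Int.abs_eq_natAbs] at hα
    exact_mod_cast hα
  have hβ' : β.natAbs ≤ B := by
    rw [Int.abs_eq_natAbs] at hβ
    exact_mod_cast hβ
  -- the entries
  have hent : ∀ a b, BD (2 * E) 1 (Dd α β P Q a b) := by
    intro a b
    rw [Dd_apply]
    have e1 : BD (2 * E) 1 (X * (C P.leadingCoeff * C Q.leadingCoeff)) := by
      have h1 : BD 0 1 (X : ℤ[X][X]) := ⟨natDegree_X_le, fun j => by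
        rw [coeff_X]
        split_ifs <;> simp⟩
      refine bd_mono (bd_mul h1 (bd_mul (bd_C (hP.2.1.2 _)) (bd_C (hQ.2.1.2 _)))) (by omega) (by omega)
    have e2 : ∀ (γ : ℤ) (A : ℤ[X][X]) (f : ℤ[X]), BD E E A → f.natDegree ≤ E →
        BD (2 * E) 1 (C (C γ) * C A.leadingCoeff * C f) := by
      intro γ A f hA hf
      have h1 : BD 0 0 (C (C γ) : ℤ[X][X]) := bd_C (by simp)
      exact bd_mono (bd_mul (bd_mul h1 (bd_C (hA.2 _))) (bd_C hf)) (by omega) (by omega)
    have e0 : BD (2 * E) 1 (0 : ℤ[X][X]) := ⟨by simp, fun j => by simp⟩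
    refine bd_add ?_ (bd_neg (bd_add ?_ ?_))
    · split_ifs
      · exact e1
      · exact e0
    · split_ifs
      · exact e2 _ _ _ hQ.2.1 (cp_bd hP.2.1 _ _)
      · exact e0
    · split_ifs
      · exact e2 _ _ _ hP.2.1 (cp_bd hQ.2.1 _ _)
      · exact e0
  have hPn := hP.2.2
  have hQn := hQ.2.2
  have hnrm : ∀ a b, nrm (Dd α β P Q a b) ≤ B ^ (2 * E + 3) := by
    intro a b
    rw [Dd_apply]
    have e1 : nrm (X * (C P.leadingCoeff * C Q.leadingCoeff)) ≤ B ^ (2 * E) := by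
      refine (nrm_mul_le _ _).trans ?_
      refine (Nat.mul_le_mul nrm_X ((nrm_mul_le _ _).trans (Nat.mul_le_mul ((nrm_C_coeff P _).trans hPn)
        ((nrm_C_coeff Q _).trans hQn)))).trans ?_
      rw [one_mul, ← pow_add, two_mul]
    have e2 : ∀ (γ : ℤ) (A A' : ℤ[X][X]) (f : ℤ[X]), γ.natAbs ≤ B → nrm A ≤ B ^ E → nrm (C f) ≤ B ^ E →
        nrm (C (C γ) * C A.leadingCoeff * C f) ≤ B * B ^ (2 * E) := by
      intro γ A A' f hγ hA hf
      refine (nrm_mul_le _ _).trans ((Nat.mul_le_mul_right _ (nrm_mul_le _ _)).trans ?_)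
      rw [nrm_CC]
      refine (Nat.mul_le_mul (Nat.mul_le_mul hγ ((nrm_C_coeff A _).trans hA)) hf).trans ?_
      rw [mul_assoc, ← pow_add, two_mul]
    have h1 : nrm ((if a = b then X * (C P.leadingCoeff * C Q.leadingCoeff) else 0) +
      (-((if a.2 = b.2 then C (C α) * C Q.leadingCoeff * C (cp P a.1 b.1) else 0) +
        (if a.1 = b.1 then C (C β) * C P.leadingCoeff * C (cp Q a.2 b.2) else 0)))) ≤
        B ^ (2 * E) + (B * B ^ (2 * E) + B * B ^ (2 * E)) := by
      refine (nrm_add_le _ _).trans (Nat.add_le_add ?_ ?_)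
      · split_ifs
        · exact e1
        · rw [nrm_zero]
          exact Nat.zero_le _
      · rw [nrm_neg]
        refine (nrm_add_le _ _).trans (Nat.add_le_add ?_ ?_)
        · split_ifs
          · exact e2 α Q Q _ hα' hQn ((cp_nrm P _ _).trans hPn)
          · rw [nrm_zero]
            exact Nat.zero_le _
        · split_ifs
          · exact e2 β P P _ hβ' hPn ((cp_nrm Q _ _).trans hQn)
          · rw [nrm_zero]
            exact Nat.zero_le _
    refine h1.trans ?_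
    rw [pow_add]
    have h2 : 1 + 2 * B ≤ B ^ 3 := by nlinarith [Nat.mul_le_mul hB hB]
    calc B ^ (2 * E) + (B * B ^ (2 * E) + B * B ^ (2 * E)) = B ^ (2 * E) * (1 + 2 * B) := by ring
      _ ≤ B ^ (2 * E) * B ^ 3 := Nat.mul_le_mul_left _ h2
  obtain ⟨hd1, hd2⟩ := det_bd (Dd α β P Q) hent hnrm
  rw [hcard] at hd1 hd2
  have hpE : P.natDegree ≤ E := hP.2.1.1
  have hqE : Q.natDegree ≤ E := hQ.2.1.1
  obtain ⟨r, hr⟩ : ∃ r, r = P.natDegree * Q.natDegree := ⟨_, rfl⟩
  have hrE : r ≤ E * E := by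
    rw [hr]
    exact Nat.mul_le_mul hpE hqE
  rw [← hr] at hd1 hd2
  refine ⟨(Dd α β P Q).det, ⟨?_, ?_, ?_⟩, ?_⟩
  · intro h0
    have h1 := Polynomial.coeff_det_X_add_C_card ((P.leadingCoeff * Q.leadingCoeff) •
      (1 : Matrix (Fin P.natDegree × Fin Q.natDegree) (Fin P.natDegree × Fin Q.natDegree) ℤ[X])) (-(Mm α β P Q))
    have h2 : (Dd α β P Q).det.coeff (Fintype.card (Fin P.natDegree × Fin Q.natDegree)) = 0 := by
      rw [h0, coeff_zero]
    have h3 := h1.symm.trans h2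
    rw [Matrix.det_smul, Matrix.det_one, mul_one] at h3
    exact pow_ne_zero _ (mul_ne_zero hlP hlQ) h3
  · refine bd_mono hd1 ?_ ?_
    · calc r * (2 * E) ≤ E * E * (2 * E) := Nat.mul_le_mul_right _ hrE
        _ ≤ (E + 2) ^ 4 := by nlinarith [Nat.zero_le (E ^ 4), Nat.zero_le (E ^ 3), Nat.zero_le (E ^ 2)]
    · calc r * 1 ≤ E * E := by rw [mul_one]; exact hrE
        _ ≤ (E + 2) ^ 4 := by nlinarith [Nat.zero_le (E ^ 4), Nat.zero_le (E ^ 3), Nat.zero_le (E ^ 2)]
  · refine hd2.trans ?_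
    have h1 : r.factorial ≤ B ^ (r * r) := by
      calc r.factorial ≤ r ^ r := Nat.factorial_le_pow r
        _ ≤ (B ^ r) ^ r := Nat.pow_le_pow_left (Nat.lt_two_pow_self.le.trans (Nat.pow_le_pow_left hB _)) _
        _ = B ^ (r * r) := by rw [← pow_mul]
    calc r.factorial * (B ^ (2 * E + 3)) ^ r ≤ B ^ (r * r) * (B ^ (2 * E + 3)) ^ r :=
          Nat.mul_le_mul_right _ h1
      _ = B ^ (r * r + (2 * E + 3) * r) := by rw [← pow_mul, ← pow_add]
      _ ≤ B ^ ((E + 2) ^ 4) := by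
        refine Nat.pow_le_pow_right hB1 ?_
        have h2 : r * r ≤ E * E * (E * E) := Nat.mul_le_mul hrE hrE
        have h3 : (2 * E + 3) * r ≤ (2 * E + 3) * (E * E) := Nat.mul_le_mul_left _ hrE
        refine (Nat.add_le_add h2 h3).trans ?_
        nlinarith [Nat.zero_le (E ^ 4), Nat.zero_le (E ^ 3), Nat.zero_le (E ^ 2)]
  · intro u x y hx hy
    rw [← coe_evalEvalRingHom, RingHom.map_det]
    refine Matrix.exists_mulVec_eq_zero_iff.1 ⟨fun a => x ^ (a.1 : ℕ) * y ^ (a.2 : ℕ), ?_, ?_⟩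
    · intro h0
      have h1 := congrFun h0 (⟨0, Nat.pos_of_ne_zero hp⟩, ⟨0, Nat.pos_of_ne_zero hq⟩)
      simp at h1
    · funext a
      have hx' := cp_ev hx a.1
      have hy' := cp_ev hy a.2
      simp only [Matrix.mulVec, dotProduct, RingHom.mapMatrix_apply, Matrix.map_apply, Pi.zero_apply]
      have h1 : ∀ b : Fin P.natDegree × Fin Q.natDegree,
          (evalEvalRingHom u (α * x + β * y)) (Dd α β P Q a b) * (x ^ (b.1 : ℕ) * y ^ (b.2 : ℕ)) =
          (if a = b then (α * x + β * y) * (P.leadingCoeff.eval u * Q.leadingCoeff.eval u) *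
            (x ^ (b.1 : ℕ) * y ^ (b.2 : ℕ)) else 0) -
          (if a.2 = b.2 then α * Q.leadingCoeff.eval u * ((cp P a.1 b.1).eval u * x ^ (b.1 : ℕ)) * y ^ (b.2 : ℕ) else 0) -
          (if a.1 = b.1 then β * P.leadingCoeff.eval u * x ^ (b.1 : ℕ) * ((cp Q a.2 b.2).eval u * y ^ (b.2 : ℕ)) else 0) := by
        intro b
        rw [Dd_apply]
        simp only [map_add, map_neg, coe_evalEvalRingHom]
        split_ifs <;> simp [evalEval] <;> ring
      rw [sum_congr rfl fun b _ => h1 b, sum_sub_distrib, sum_sub_distrib, Finset.sum_ite_eq, if_pos (mem_univ _)]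
      have h2 : ∑ b : Fin P.natDegree × Fin Q.natDegree,
          (if a.2 = b.2 then α * Q.leadingCoeff.eval u * ((cp P a.1 b.1).eval u * x ^ (b.1 : ℕ)) * y ^ (b.2 : ℕ) else 0) =
          α * Q.leadingCoeff.eval u * (P.leadingCoeff.eval u * x ^ ((a.1 : ℕ) + 1)) * y ^ (a.2 : ℕ) := by
        rw [Fintype.sum_prod_type, ← hx', mul_sum, sum_mul]
        refine sum_congr rfl fun k _ => ?_
        rw [Finset.sum_ite_eq, if_pos (mem_univ _)]
      have h3 : ∑ b : Fin P.natDegree × Fin Q.natDegree,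
          (if a.1 = b.1 then β * P.leadingCoeff.eval u * x ^ (b.1 : ℕ) * ((cp Q a.2 b.2).eval u * y ^ (b.2 : ℕ)) else 0) =
          β * P.leadingCoeff.eval u * x ^ (a.1 : ℕ) * (Q.leadingCoeff.eval u * y ^ ((a.2 : ℕ) + 1)) := by
        rw [Fintype.sum_prod_type_right, ← hy', mul_sum]
        refine sum_congr rfl fun k _ => ?_
        rw [Finset.sum_ite_eq, if_pos (mem_univ _)]
      rw [h2, h3]
      ring

end Pool.Agent.H97.XE
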