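import Pool.Agent.H97.XE.XEA

/-! # [H97 XE WPL] The points of one window, and the small range: polynomials in place of finite sets

`win_pol` is `win_cnt` (`Pool/Agent/H97/XU/WCT.lean`): the same proof, but the polynomials `R, R'` of `elimU` are kept (`pb_of`:
`PB B ((T^7 + T^90 + 2)^4 + 4 T^14)`, at most `T^365`), and the finite union over the real roots `θ` of `topm n m F` (at most `n ≤ T` roots) is replaced by the
products (`pb_prod`, `van_prod`). Nothing depends on `a`. `small_pol` is `small_cnt` (`Pool/Agent/H97/XU/SMU.lean`) in the same way (`elimU` with `k = 3`, `D = n + m`: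
`PB B ((D+5)^4 + 4 D^2)`, at most `(D+5)^5`). Copy the proofs of `win_cnt` and `small_cnt`. -/

namespace Pool.Agent.H97.XE

open Finset Polynomial Pool.Agent.H37.TE Pool.Agent.H98.TE Pool.Agent.H4.TP Pool.Agent.H4.SX
  Pool.Agent.H97.XU Pool.Agent.H37.XP

private theorem wpl_num {T : ℕ} (hT : 10 ≤ T) :
    (T ^ 7 + T ^ 90 + 2) ^ 4 + 2 * (2 * T ^ 7 * T ^ 7) ≤ T ^ 365 := by
  have h1 : 1 ≤ T := by omega
  have e7 : T ^ 7 ≤ T ^ 90 := Nat.pow_le_pow_right h1 (by norm_num)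
  have e2 : 2 ≤ T ^ 90 := by
    calc 2 ≤ T ^ 1 := by rw [pow_one]; omega
      _ ≤ T ^ 90 := Nat.pow_le_pow_right h1 (by norm_num)
  have e3 : (T ^ 7 + T ^ 90 + 2) ^ 4 ≤ T ^ 364 := by
    calc (T ^ 7 + T ^ 90 + 2) ^ 4 ≤ (3 * T ^ 90) ^ 4 := Nat.pow_le_pow_left (by omega) 4
      _ ≤ (T * T ^ 90) ^ 4 := Nat.pow_le_pow_left (Nat.mul_le_mul_right _ (by omega)) 4
      _ = T ^ 364 := by rw [← pow_succ', ← pow_mul]
  have e4 : 2 * (2 * T ^ 7 * T ^ 7) = 4 * T ^ 14 := by ring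
  have e5 : T ^ 14 ≤ T ^ 364 := Nat.pow_le_pow_right h1 (by norm_num)
  have e8 : T ^ 365 = T * T ^ 364 := by rw [← pow_succ']
  rw [e4, e8]
  calc (T ^ 7 + T ^ 90 + 2) ^ 4 + 4 * T ^ 14 ≤ 5 * T ^ 364 := by omega
    _ ≤ T * T ^ 364 := Nat.mul_le_mul_right _ (by omega)

theorem win_pol {n m B Q j T : ℕ} (hn : 3 ≤ n) (hB : 2 ≤ B) (hQ : 1 ≤ Q) (hj : n ≤ j)
    (hT : n + m + Q + j + 3 ≤ T) {F : ℤ[X][X][X]} (h : HypG n m F) (hF : CB B F)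
    (hR : HR n m F) :
    ∃ R R' : ℤ[X][X], PB B (T ^ 366) R ∧ PB B (T ^ 366) R' ∧ ∀ (a : ℕ) (x y : ℤ),
      B ^ (T ^ 366) ≤ a → ev3 (a : ℤ) x y F = 0 → |y| ≤ |x| →
      (a : ℤ) ^ j ≤ |x| ^ Q → |x| ^ Q ≤ (a : ℤ) ^ (j + 1) → Van R R' (a : ℤ) x y := by
  classical
  have hT10 : 10 ≤ T := by omega
  have hT1 : 1 ≤ T := by omega
  have hB1 : 1 ≤ B := by omega
  have hBR : (1 : ℝ) ≤ B := by exact_mod_cast hB1
  -- the polynomials of one root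
  have hone : ∀ θ : ℝ, ∃ R R' : ℤ[X][X], (topm n m F).eval θ = 0 → (PB B (T ^ 365) R ∧
      PB B (T ^ 365) R' ∧
      ∀ (a : ℕ) (x y : ℤ) (ρ : ℝ), B ^ (T ^ 366) ≤ a → ev3 (a : ℤ) x y F = 0 → |y| ≤ |x| →
        (a : ℤ) ^ j ≤ |x| ^ Q → |x| ^ Q ≤ (a : ℤ) ^ (j + 1) →
        1 / (a : ℝ) ≤ ρ → 1 / |(x : ℝ)| ≤ ρ → ρ ^ Q ≤ 1 / (a : ℝ) →
        |(y : ℝ) / x - θ| ≤ (B : ℝ) ^ (T ^ 6) * ρ →
        1 ≤ (B : ℝ) ^ (T ^ 6) * |ev θ 0 0 0 (dq (PW n m F))| → Van R R' (a : ℤ) x y) := by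
    intro θ
    by_cases hθ : (topm n m F).eval θ = 0
    swap
    · exact ⟨1, 1, fun h0 => absurd h0 hθ⟩
    obtain ⟨G, hG0, hGT, hGn, hGB, hGv⟩ := window_aux hn hB hQ hj hT h hF θ hθ (hR θ hθ)
    have hD : n + m ≤ T ^ 7 := by
      calc n + m ≤ T := by omega
        _ = T ^ 1 := (pow_one T).symm
        _ ≤ T ^ 7 := Nat.pow_le_pow_right hT1 (by norm_num)
    obtain ⟨R, R', hR0, hR0', hd, hd', hk, hk', hv⟩ := elimU (k := T ^ 90) (D := T ^ 7)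
      (by omega) hB h hF (Nat.one_le_pow _ _ hT1) hD hG0 hGT hGn hGB
    refine ⟨R, R', fun _ => ⟨pb_mono hB1 (pb_of hB hR0 hd hk) (wpl_num hT10),
      pb_mono hB1 (pb_of hB hR0' hd' hk') (wpl_num hT10),
      fun a x y ρ ha k1 k2 k3 k4 k5 k6 k7 k8 k9 => ?_⟩⟩
    have h120 : B ^ (T ^ 120) ≤ a := by
      refine le_trans ?_ ha
      exact Nat.pow_le_pow_right hB1 (Nat.pow_le_pow_right hT1 (by norm_num))
    exact hv (a : ℤ) x y k1 (hGv a x y ρ h120 k1 k2 k3 k4 k5 k6 k7 k8 k9)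
  choose W W' hW using hone
  have hroot : ∀ θ ∈ (topm n m F).roots.toFinset, (topm n m F).eval θ = 0 := by
    intro θ hθ
    rw [Multiset.mem_toFinset] at hθ
    exact (mem_roots'.1 hθ).2
  have hcard : (topm n m F).roots.toFinset.card ≤ n := by
    refine (Multiset.toFinset_card_le _).trans ((card_roots' _).trans ?_)
    rw [topm_eq]
    exact natDegree_map_le.trans (topq_deg n m F)
  have hexp : (topm n m F).roots.toFinset.card * T ^ 365 ≤ T ^ 366 := by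
    calc (topm n m F).roots.toFinset.card * T ^ 365 ≤ T * T ^ 365 :=
          Nat.mul_le_mul_right _ (by omega)
      _ = T ^ 366 := by rw [← pow_succ']
  refine ⟨∏ θ ∈ (topm n m F).roots.toFinset, W θ, ∏ θ ∈ (topm n m F).roots.toFinset, W' θ,
    pb_mono hB1 (pb_prod _ _ fun θ hθ => (hW θ (hroot θ hθ)).1) hexp,
    pb_mono hB1 (pb_prod _ _ fun θ hθ => (hW θ (hroot θ hθ)).2.1) hexp,
    fun a x y ha k1 k2 k3 k4 => ?_⟩
  -- a point of the window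
  have hapos : 0 < a := lt_of_lt_of_le (pow_pos (by omega) _) ha
  have haZ : (1 : ℤ) ≤ a := by exact_mod_cast hapos
  have hx0 : x ≠ 0 := by
    rintro rfl
    rw [abs_zero, zero_pow (by omega)] at k3
    have : (0 : ℤ) < (a : ℤ) ^ j := by positivity
    omega
  have haR : (0 : ℝ) < a := by exact_mod_cast hapos
  have haR1 : (1 : ℝ) ≤ a := by exact_mod_cast hapos
  have hxR : (0 : ℝ) < |(x : ℝ)| := abs_pos.2 (by exact_mod_cast hx0)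
  have hxQ : (a : ℝ) ≤ |(x : ℝ)| ^ Q := by
    have e1 : (a : ℤ) ≤ |x| ^ Q := by
      calc (a : ℤ) = (a : ℤ) ^ 1 := (pow_one _).symm
        _ ≤ (a : ℤ) ^ j := pow_le_pow_right₀ haZ (by omega)
        _ ≤ |x| ^ Q := k3
    exact_mod_cast e1
  obtain ⟨ρ, hρ⟩ : ∃ ρ : ℝ, ρ = max (1 / (a : ℝ)) (1 / |(x : ℝ)|) := ⟨_, rfl⟩
  have h5 : 1 / (a : ℝ) ≤ ρ := by rw [hρ]; exact le_max_left _ _
  have h6 : 1 / |(x : ℝ)| ≤ ρ := by rw [hρ]; exact le_max_right _ _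
  have hρ0 : 0 < ρ := lt_of_lt_of_le (by positivity) h5
  have h7 : ρ ^ Q ≤ 1 / (a : ℝ) := by
    rcases le_total (1 / (a : ℝ)) (1 / |(x : ℝ)|) with hle | hle
    · rw [hρ, max_eq_right hle, one_div, one_div, inv_pow]
      exact inv_anti₀ haR hxQ
    · rw [hρ, max_eq_left hle, one_div, inv_pow]
      apply inv_anti₀ haR
      calc (a : ℝ) = (a : ℝ) ^ 1 := (pow_one _).symm
        _ ≤ (a : ℝ) ^ Q := pow_le_pow_right₀ haR1 hQ
  have h8 : ρ * (B : ℝ) ^ (T ^ 6) ≤ 1 := by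
    have e1 : (B : ℝ) ^ (T ^ 6 * Q) ≤ a := by
      have e2 : T ^ 6 * Q ≤ T ^ 366 := by
        calc T ^ 6 * Q ≤ T ^ 6 * T := Nat.mul_le_mul_left _ (by omega)
          _ = T ^ 7 := by ring
          _ ≤ T ^ 366 := Nat.pow_le_pow_right hT1 (by norm_num)
      exact_mod_cast (Nat.pow_le_pow_right hB1 e2).trans ha
    have e3 : (ρ * (B : ℝ) ^ (T ^ 6)) ^ Q ≤ 1 := by
      rw [mul_pow, ← pow_mul]
      calc ρ ^ Q * (B : ℝ) ^ (T ^ 6 * Q) ≤ 1 / (a : ℝ) * a :=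
            mul_le_mul h7 e1 (by positivity) (by positivity)
        _ = 1 := by field_simp
    by_contra hcon
    rw [not_le] at hcon
    exact absurd e3 (not_le.2 (one_lt_pow₀ hcon (by omega)))
  obtain ⟨θ, t1, t2, t3⟩ := near_win hn hB (T := T) (by omega) h hF (by omega) hx0 k2 k1 h5 h6 h8
  have htop : topm n m F ≠ 0 := (topm_simple h.sq).1
  have hmem : θ ∈ (topm n m F).roots.toFinset := by
    rw [Multiset.mem_toFinset, mem_roots htop]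
    exact t1
  exact van_prod hmem ((hW θ t1).2.2 a x y ρ ha k1 k2 k3 k4 h5 h6 h7 t2 t3)

theorem small_pol {n m B : ℕ} (hn : 1 ≤ n) (hB : 2 ≤ B) {F : ℤ[X][X][X]} (h : HypG n m F)
    (hF : CB B F) (hp : ¬ Prp m F) :
    ∃ R R' : ℤ[X][X], PB B ((n + m + 5) ^ 5) R ∧ PB B ((n + m + 5) ^ 5) R' ∧
      ∀ (a : ℕ) (x y : ℤ), B ^ ((n + m + 5) ^ 5) ≤ a → ev3 (a : ℤ) x y F = 0 →
      |y| ≤ |x| → |x| ^ (2 * n) ≤ (a : ℤ) → Van R R' (a : ℤ) x y := by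
  obtain ⟨G, hG0, hGT, hGn, hGB, hGv⟩ := small_aux hn hB h hF hp
  obtain ⟨R, R', hR, hR', hd, hd', hk, hk', hv⟩ := elimU (k := 3) (D := n + m) hn hB h hF
    (by norm_num) le_rfl hG0 hGT hGn hGB
  obtain ⟨D, hD⟩ : ∃ D, D = n + m := ⟨_, rfl⟩
  rw [← hD] at hd hd' hk hk' ⊢
  have hB1 : 1 ≤ B := by omega
  have hX : 1 ≤ D + 5 := by omega
  have e0 : (D + 3 + 2) ^ 4 = (D + 5) ^ 4 := by ring
  have e1 : (D + 3 + 2) ^ 4 + 2 * (2 * D * D) ≤ (D + 5) ^ 5 := by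
    have q1 : 2 * (2 * D * D) ≤ (D + 5) ^ 4 := by
      calc 2 * (2 * D * D) ≤ 25 * (D + 5) ^ 2 := by nlinarith
        _ ≤ (D + 5) ^ 2 * (D + 5) ^ 2 := Nat.mul_le_mul_right _ (by nlinarith)
        _ = (D + 5) ^ 4 := by ring
    calc (D + 3 + 2) ^ 4 + 2 * (2 * D * D) ≤ (D + 5) ^ 4 + (D + 5) ^ 4 := by rw [e0]; omega
      _ = 2 * (D + 5) ^ 4 := by ring
      _ ≤ (D + 5) * (D + 5) ^ 4 := Nat.mul_le_mul_right _ (by omega)
      _ = (D + 5) ^ 5 := by ring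
  refine ⟨R, R', pb_mono hB1 (pb_of hB hR hd hk) e1, pb_mono hB1 (pb_of hB hR' hd' hk') e1,
    fun a x y ha hxy hyx hx => ?_⟩
  have e2 : 4 * n + 2 * m + 4 ≤ (D + 5) ^ 5 := by
    calc 4 * n + 2 * m + 4 ≤ 5 * (D + 5) := by omega
      _ ≤ (D + 5) ^ 4 * (D + 5) := by
          apply Nat.mul_le_mul_right
          calc 5 ≤ D + 5 := by omega
            _ = (D + 5) ^ 1 := by ring
            _ ≤ (D + 5) ^ 4 := Nat.pow_le_pow_right hX (by norm_num)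
      _ = (D + 5) ^ 5 := by ring
  have h1 := small_fibU hn hB h.H hF ((Nat.pow_le_pow_right hB1 e2).trans ha) hyx hx hxy
  exact hv a x y hxy (hGv a x y h1)

end Pool.Agent.H97.XE
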