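import Pool.Agent.H97.XE.Defs

/-! # [H97 XE XEA] Rules for `PB`

`nrm` is subadditive and submultiplicative (`Polynomial.sum_def`; or `nrm R ≤ ∑ i ∈ range (d+1), ∑ j ∈ range (e+1), |coeff|`; a proof by
`Polynomial.induction_on'` in both factors for `nrm_mul_le`; on monomials `nrm (monomial i (monomial j c)) = |c|`).
`pb_one`: `nrm 1 = 1`. `pb_mul`: the degrees and the exponents add. `pb_prod`: induction on the finset. `pb_of`: at most `(d+1)^2 ≤ 2^(2d)` coefficients, each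
at most `B^k`. `pb_ng`: `ngR R` is `R(-t, X)`. `van_mul_left` etc.: `evalEval a x` is multiplicative (`evalEval_mul` or `evalEvalRingHom`). -/

namespace Pool.Agent.H97.XE

open Finset Polynomial Pool.Agent.H37.TE Pool.Agent.H98.TE Pool.Agent.H4.TP Pool.Agent.H4.SX
  Pool.Agent.H97.XU Pool.Agent.H37.XP

/-- the sum of the values of `ν` at the coefficients -/
private noncomputable def gN {R : Type*} [Ring R] (ν : R → ℕ) (P : R[X]) : ℕ := P.sum fun _ c => ν c

/-- a submultiplicative norm with integral values -/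
private structure Nu {R : Type*} [Ring R] (ν : R → ℕ) : Prop where
  zero : ν 0 = 0
  add : ∀ a b, ν (a + b) ≤ ν a + ν b
  mul : ∀ a b, ν (a * b) ≤ ν a * ν b
  neg : ∀ a, ν (-a) = ν a
  one : ν 1 = 1

private theorem nu_int : Nu Int.natAbs := ⟨rfl, Int.natAbs_add_le, fun a b => (Int.natAbs_mul a b).le,
  Int.natAbs_neg, rfl⟩

private theorem gN_eq {R : Type*} [Ring R] {ν : R → ℕ} (h : Nu ν) (P : R[X]) {s : Finset ℕ}
    (hs : P.support ⊆ s) : gN ν P = ∑ i ∈ s, ν (P.coeff i) :=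
  Polynomial.sum_eq_of_subset _ (fun _ => h.zero) hs

private theorem gN_add {R : Type*} [Ring R] {ν : R → ℕ} (h : Nu ν) (P Q : R[X]) :
    gN ν (P + Q) ≤ gN ν P + gN ν Q := by
  classical
  rw [gN_eq h (P + Q) (s := P.support ∪ Q.support) support_add, gN_eq h P (s := P.support ∪ Q.support)
    subset_union_left, gN_eq h Q (s := P.support ∪ Q.support) subset_union_right, ← sum_add_distrib]
  refine sum_le_sum fun i _ => ?_
  rw [coeff_add]
  exact h.add _ _

private theorem gN_zero {R : Type*} [Ring R] (ν : R → ℕ) : gN ν 0 = 0 := sum_zero_index _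

private theorem gN_sum {R : Type*} [Ring R] {ν : R → ℕ} (h : Nu ν) {ι : Type*} (s : Finset ι) (P : ι → R[X]) :
    gN ν (∑ i ∈ s, P i) ≤ ∑ i ∈ s, gN ν (P i) := by
  classical
  induction s using Finset.induction_on with
  | empty => rw [sum_empty, sum_empty, gN_zero]
  | insert a s ha ih =>
    rw [sum_insert ha, sum_insert ha]
    exact (gN_add h _ _).trans (Nat.add_le_add_left ih _)

private theorem gN_monomial {R : Type*} [Ring R] {ν : R → ℕ} (h : Nu ν) (n : ℕ) (a : R) :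
    gN ν (monomial n a) = ν a := sum_monomial_index _ _ h.zero

private theorem gN_mul {R : Type*} [Ring R] {ν : R → ℕ} (h : Nu ν) (P Q : R[X]) :
    gN ν (P * Q) ≤ gN ν P * gN ν Q := by
  rw [mul_eq_sum_sum]
  refine (gN_sum h _ _).trans ?_
  have h1 : gN ν P = ∑ i ∈ P.support, ν (P.coeff i) := rfl
  have h2 : gN ν Q = ∑ i ∈ Q.support, ν (Q.coeff i) := rfl
  rw [h1, sum_mul]
  refine sum_le_sum fun i _ => ?_
  rw [h2, mul_sum]
  refine (gN_sum h _ _).trans (sum_le_sum fun j _ => ?_)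
  rw [gN_monomial h]
  exact h.mul _ _

private theorem gN_neg {R : Type*} [Ring R] {ν : R → ℕ} (h : Nu ν) (P : R[X]) : gN ν (-P) = gN ν P := by
  have h1 : gN ν P = ∑ i ∈ P.support, ν (P.coeff i) := rfl
  have h2 : gN ν (-P) = ∑ i ∈ (-P).support, ν ((-P).coeff i) := rfl
  rw [h1, h2, support_neg]
  refine sum_congr rfl fun i _ => ?_
  rw [coeff_neg, h.neg]

private theorem gN_one {R : Type*} [Ring R] {ν : R → ℕ} (h : Nu ν) : gN ν (1 : R[X]) = 1 := by
  have h1 : (1 : R[X]) = monomial 0 1 := rfl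
  rw [h1, gN_monomial h, h.one]

private theorem gN_nu {R : Type*} [Ring R] {ν : R → ℕ} (h : Nu ν) : Nu (gN ν) :=
  ⟨gN_zero ν, gN_add h, gN_mul h, gN_neg h, gN_one h⟩

private theorem gN_coeff {R : Type*} [Ring R] {ν : R → ℕ} (h : Nu ν) (P : R[X]) (i : ℕ) :
    ν (P.coeff i) ≤ gN ν P := by
  by_cases hi : P.coeff i = 0
  · rw [hi, h.zero]
    exact Nat.zero_le _
  · exact single_le_sum (f := fun i => ν (P.coeff i)) (fun _ _ => Nat.zero_le _) (mem_support_iff.2 hi)

private theorem nu1 : Nu (gN Int.natAbs) := gN_nu nu_int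

private theorem nrm_gN (P : ℤ[X][X]) : nrm P = gN (gN Int.natAbs) P := rfl

theorem nrm_add_le (P Q : ℤ[X][X]) : nrm (P + Q) ≤ nrm P + nrm Q := gN_add nu1 P Q

theorem nrm_mul_le (P Q : ℤ[X][X]) : nrm (P * Q) ≤ nrm P * nrm Q := gN_mul nu1 P Q

theorem nrm_neg (P : ℤ[X][X]) : nrm (-P) = nrm P := gN_neg nu1 P

theorem nrm_zero : nrm 0 = 0 := gN_zero _

theorem nrm_one : nrm 1 = 1 := gN_one nu1

theorem nrm_sum_le {ι : Type*} (s : Finset ι) (P : ι → ℤ[X][X]) :
    nrm (∑ i ∈ s, P i) ≤ ∑ i ∈ s, nrm (P i) := gN_sum nu1 s P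

theorem nrm_prod_le {ι : Type*} (s : Finset ι) (P : ι → ℤ[X][X]) :
    nrm (∏ i ∈ s, P i) ≤ ∏ i ∈ s, nrm (P i) := by
  classical
  induction s using Finset.induction_on with
  | empty => rw [prod_empty, prod_empty, nrm_one]
  | insert a s ha ih =>
    rw [prod_insert ha, prod_insert ha]
    exact (nrm_mul_le _ _).trans (Nat.mul_le_mul_left _ ih)

/-- a constant from `ℤ[t]`, times `X^k` -/
theorem nrm_monomial_coeff_le (P : ℤ[X][X]) (i k : ℕ) :
    nrm (monomial k (P.coeff i)) ≤ nrm P := by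
  rw [nrm_gN, gN_monomial nu1]
  exact gN_coeff nu1 P i

theorem coeff_le_nrm (R : ℤ[X][X]) (i j : ℕ) : |(R.coeff i).coeff j| ≤ (nrm R : ℤ) := by
  rw [Int.abs_eq_natAbs]
  exact_mod_cast (gN_coeff nu_int (R.coeff i) j).trans (gN_coeff nu1 R i)

private theorem bd_mono {d e d' e' : ℕ} {P : ℤ[X][X]} (h : BD d e P) (hd : d ≤ d') (he : e ≤ e') : BD d' e' P :=
  ⟨h.1.trans he, fun j => (h.2 j).trans hd⟩

private theorem bd_mul {d1 e1 d2 e2 : ℕ} {P Q : ℤ[X][X]} (h1 : BD d1 e1 P) (h2 : BD d2 e2 Q) :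
    BD (d1 + d2) (e1 + e2) (P * Q) := by
  refine ⟨natDegree_mul_le.trans (Nat.add_le_add h1.1 h2.1), fun j => ?_⟩
  rw [coeff_mul]
  refine natDegree_sum_le_of_forall_le _ _ (fun x _ => ?_)
  exact natDegree_mul_le.trans (Nat.add_le_add (h1.2 _) (h2.2 _))

theorem pb_one (B : ℕ) : PB B 0 1 := by
  refine ⟨one_ne_zero, ⟨by simp, fun j => ?_⟩, by rw [nrm_one, pow_zero]⟩
  rw [coeff_one]
  split_ifs <;> simp

theorem pb_mono {B E E' : ℕ} (hB : 1 ≤ B) {R : ℤ[X][X]} (h : PB B E R) (hE : E ≤ E') : PB B E' R :=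
  ⟨h.1, bd_mono h.2.1 hE hE, h.2.2.trans (Nat.pow_le_pow_right hB hE)⟩

/-- another base -/
theorem pb_base {B k E : ℕ} (hk : 1 ≤ k) {R : ℤ[X][X]} (h : PB (B ^ k) E R) : PB B (k * E) R := by
  have h1 : E ≤ k * E := Nat.le_mul_of_pos_left _ hk
  refine ⟨h.1, bd_mono h.2.1 h1 h1, ?_⟩
  rw [pow_mul]
  exact h.2.2

theorem pb_mul {B E E' : ℕ} {R R' : ℤ[X][X]} (h : PB B E R) (h' : PB B E' R') :
    PB B (E + E') (R * R') := by
  refine ⟨mul_ne_zero h.1 h'.1, bd_mul h.2.1 h'.2.1, ?_⟩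
  rw [pow_add]
  exact (nrm_mul_le _ _).trans (Nat.mul_le_mul h.2.2 h'.2.2)

theorem pb_prod {B E : ℕ} {ι : Type*} (s : Finset ι) (R : ι → ℤ[X][X])
    (h : ∀ i ∈ s, PB B E (R i)) : PB B (s.card * E) (∏ i ∈ s, R i) := by
  classical
  induction s using Finset.induction_on with
  | empty =>
    rw [prod_empty, card_empty, zero_mul]
    exact pb_one B
  | insert a s ha ih =>
    rw [prod_insert ha, card_insert_of_notMem ha]
    have h1 := pb_mul (h a (mem_insert_self _ _)) (ih (fun i hi => h i (mem_insert_of_mem hi)))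
    have h2 : (s.card + 1) * E = E + s.card * E := by ring
    rw [h2]
    exact h1

private theorem two_pow_ge (d : ℕ) : (d + 1) * (d + 1) ≤ 2 ^ (2 * d) := by
  have h1 : d + 1 ≤ 2 ^ d := Nat.lt_two_pow_self
  calc (d + 1) * (d + 1) ≤ 2 ^ d * 2 ^ d := Nat.mul_le_mul h1 h1
    _ = 2 ^ (2 * d) := by rw [← pow_add, two_mul]

theorem pb_of {B k d : ℕ} (hB : 2 ≤ B) {R : ℤ[X][X]} (hR : R ≠ 0) (hd : BD d d R)
    (hk : ∀ i j, |(R.coeff i).coeff j| ≤ (B : ℤ) ^ k) : PB B (k + 2 * d) R := by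
  refine ⟨hR, bd_mono hd (by omega) (by omega), ?_⟩
  have h1 : ∀ i j, ((R.coeff i).coeff j).natAbs ≤ B ^ k := by
    intro i j
    have h2 := hk i j
    rw [Int.abs_eq_natAbs] at h2
    exact_mod_cast h2
  have h2 : ∀ i, gN Int.natAbs (R.coeff i) ≤ (d + 1) * B ^ k := by
    intro i
    rw [gN_eq nu_int (R.coeff i) (s := range (d + 1)) (supp_subset_range (Nat.lt_succ_of_le (hd.2 i)))]
    refine (sum_le_sum fun j _ => h1 i j).trans ?_
    rw [sum_const, card_range, smul_eq_mul]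
  have h3 : nrm R ≤ (d + 1) * ((d + 1) * B ^ k) := by
    rw [nrm_gN, gN_eq nu1 R (s := range (d + 1)) (supp_subset_range (Nat.lt_succ_of_le hd.1))]
    refine (sum_le_sum fun j _ => h2 j).trans ?_
    rw [sum_const, card_range, smul_eq_mul]
  calc nrm R ≤ (d + 1) * ((d + 1) * B ^ k) := h3
    _ = ((d + 1) * (d + 1)) * B ^ k := by ring
    _ ≤ B ^ (2 * d) * B ^ k :=
        Nat.mul_le_mul_right _ ((two_pow_ge d).trans (Nat.pow_le_pow_left hB _))
    _ = B ^ (k + 2 * d) := by rw [← pow_add, add_comm]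

theorem pb_coeff {B E : ℕ} {R : ℤ[X][X]} (h : PB B E R) (i j : ℕ) :
    |(R.coeff i).coeff j| ≤ (B : ℤ) ^ E := by
  refine (coeff_le_nrm R i j).trans ?_
  exact_mod_cast h.2.2

private theorem ev_ne {a : ℤ} : ∀ (n : ℕ) (p : ℤ[X]), p.natDegree ≤ n → p ≠ 0 →
    (∀ i, |p.coeff i| < |a|) → p.eval a ≠ 0 := by
  intro n
  induction n with
  | zero =>
    intro p hn hp h h0
    rw [eq_C_of_natDegree_le_zero hn, eval_C] at h0
    apply hp
    rw [eq_C_of_natDegree_le_zero hn, h0, C_0]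
  | succ n ih =>
    intro p hn hp h h0
    have h1 := divX_mul_X_add p
    have h2 : (divX p).eval a * a + p.coeff 0 = 0 := by
      rw [← h1, eval_add, eval_mul, eval_X, eval_C] at h0
      exact h0
    have h3 : a ∣ p.coeff 0 := by
      refine ⟨-(divX p).eval a, ?_⟩
      linear_combination h2
    have h4 : p.coeff 0 = 0 := Int.eq_zero_of_abs_lt_dvd ((abs_dvd a _).2 h3) (h 0)
    have ha : a ≠ 0 := by
      rintro rfl
      have h5 := h 0
      rw [abs_zero] at h5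
      exact absurd (abs_nonneg (p.coeff 0)) (not_le.2 h5)
    have h5 : (divX p).eval a = 0 := by
      rw [h4, add_zero] at h2
      exact (mul_eq_zero.1 h2).resolve_right ha
    have h6 : divX p ≠ 0 := by
      intro h7
      rw [h7, h4, zero_mul, C_0, add_zero] at h1
      exact hp h1.symm
    refine ih (divX p) ?_ h6 (fun i => ?_) h5
    · rw [natDegree_divX_eq_natDegree_tsub_one]
      omega
    · rw [coeff_divX]
      exact h _

/-- `R(a, X) ≠ 0` for large `a` -/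
theorem pb_map_ne {B E : ℕ} (hB : 2 ≤ B) {R : ℤ[X][X]} (h : PB B E R) {a : ℤ}
    (ha : (B : ℤ) ^ (2 * E + 1) ≤ |a|) : R.map (evalRingHom a) ≠ 0 := by
  obtain ⟨i, hi⟩ : ∃ i, R.coeff i ≠ 0 := by
    by_contra h1
    push Not at h1
    exact h.1 (Polynomial.ext fun i => by rw [h1, coeff_zero])
  intro h0
  have h1 := congrArg (fun P => P.coeff i) h0
  simp only [coeff_map, coe_evalRingHom, coeff_zero] at h1
  refine ev_ne _ (R.coeff i) le_rfl hi (fun j => ?_) h1
  refine lt_of_lt_of_le (lt_of_le_of_lt (pb_coeff h i j) ?_) ha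
  have hB' : (1 : ℤ) < B := by exact_mod_cast hB
  exact pow_lt_pow_right₀ hB' (by omega)

/-- `R(-t, X)` -/
noncomputable def ngR (R : ℤ[X][X]) : ℤ[X][X] := R.map (compRingHom (-X))

theorem ngR_ev (R : ℤ[X][X]) (a x : ℤ) : evalEval a x (ngR R) = evalEval (-a) x R := by
  rw [← eval₂_evalRingHom, ← eval₂_evalRingHom, ngR, eval₂_map]
  congr 1
  refine Polynomial.ringHom_ext (fun c => ?_) ?_
  · simp
  · simp

private theorem comp_ne (p : ℤ[X]) : (p.comp (-X)).natDegree = p.natDegree := by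
  rw [natDegree_comp, natDegree_neg, natDegree_X, mul_one]

private theorem gN_comp (p : ℤ[X]) : gN Int.natAbs (p.comp (-X)) ≤ gN Int.natAbs p := by
  rw [comp_eq_sum_left]
  refine (gN_sum nu_int _ _).trans (sum_le_sum fun i _ => ?_)
  have h1 : ∀ i : ℕ, gN Int.natAbs ((-X : ℤ[X]) ^ i) ≤ 1 := by
    intro i
    induction i with
    | zero => rw [pow_zero, gN_one nu_int]
    | succ i ih =>
      rw [pow_succ]
      refine (gN_mul nu_int _ _).trans ?_
      have h2 : gN Int.natAbs (-X : ℤ[X]) = 1 := by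
        rw [gN_neg nu_int]
        exact gN_monomial nu_int 1 1
      rw [h2, mul_one]
      exact ih
  have h2 : gN Int.natAbs (C (p.coeff i)) = (p.coeff i).natAbs := gN_monomial nu_int 0 _
  refine (gN_mul nu_int _ _).trans ?_
  rw [h2]
  exact (Nat.mul_le_mul_left _ (h1 i)).trans (mul_one _).le

private theorem ngR_ngR (R : ℤ[X][X]) : ngR (ngR R) = R := by
  refine Polynomial.ext fun i => ?_
  rw [ngR, ngR, coeff_map, coeff_map]
  exact comp_neg_X_comp_neg_X _

theorem pb_ng {B E : ℕ} {R : ℤ[X][X]} (h : PB B E R) : PB B E (ngR R) := by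
  have hc : ∀ i, (ngR R).coeff i = (R.coeff i).comp (-X) := fun i => by
    rw [ngR, coeff_map]
    rfl
  refine ⟨fun h0 => h.1 ?_, ⟨natDegree_map_le.trans h.2.1.1, fun j => ?_⟩, ?_⟩
  · have h1 := ngR_ngR R
    rw [h0, ngR, Polynomial.map_zero] at h1
    exact h1.symm
  · rw [hc, comp_ne]
    exact h.2.1.2 j
  · refine le_trans ?_ h.2.2
    rw [nrm_gN, nrm_gN, gN_eq nu1 (ngR R) (s := R.support) (support_map_subset _ _)]
    refine sum_le_sum fun i _ => ?_
    rw [hc]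
    exact gN_comp _

theorem van_left {R R' S S' : ℤ[X][X]} {a x y : ℤ} (h : Van R R' a x y) :
    Van (R * S) (R' * S') a x y :=
  ⟨by rw [evalEval_mul, h.1, zero_mul], by rw [evalEval_mul, h.2, zero_mul]⟩

theorem van_right {R R' S S' : ℤ[X][X]} {a x y : ℤ} (h : Van S S' a x y) :
    Van (R * S) (R' * S') a x y :=
  ⟨by rw [evalEval_mul, h.1, mul_zero], by rw [evalEval_mul, h.2, mul_zero]⟩

theorem van_prod {ι : Type*} {s : Finset ι} {R R' : ι → ℤ[X][X]} {a x y : ℤ} {i : ι} (hi : i ∈ s)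
    (h : Van (R i) (R' i) a x y) : Van (∏ i ∈ s, R i) (∏ i ∈ s, R' i) a x y :=
  ⟨by rw [evalEval_prod]; exact prod_eq_zero hi h.1, by rw [evalEval_prod]; exact prod_eq_zero hi h.2⟩

end Pool.Agent.H97.XE
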